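import Pool.Agent.W646.KKS.RNW

set_option autoImplicit false
set_option linter.unusedSectionVars false

/-!
# KKS-STEP: one step, linearised
-/

open scoped InnerProductSpace
open Pool.Agent.W662.KKS

namespace Pool.Agent.W646.KKS

variable {H : Type} [NormedAddCommGroup H] [InnerProductSpace ℂ H] [CompleteSpace H]

lemma conj_one (N : VonNeumannAlgebra H) :
    conj (1 : (H →L[ℂ] H)ˣ) N = (N : Set (H →L[ℂ] H)) := by
  ext y
  show (((1 : (H →L[ℂ] H)ˣ) : H →L[ℂ] H)) * y * (((1 : (H →L[ℂ] H)ˣ)⁻¹ : (H →L[ℂ] H)ˣ) :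
    H →L[ℂ] H) ∈ N ↔ y ∈ (N : Set (H →L[ℂ] H))
  simp

/-- the double commutator in terms of the right multiplication -/
lemma dc_eq (M : VonNeumannAlgebra H) (ξ : H) (ρ : (H →L[ℂ] H) → (H →L[ℂ] H)) (hstd : Std M ξ ρ)
    (S x a : H →L[ℂ] H) (hx : x ∈ M) (ha : a ∈ M) :
    dc ξ ρ S x a = -((x * (S * ρ a - ρ a * S) - (S * ρ a - ρ a * S) * x) ξ) := by
  have hv : a ξ = ρ a ξ := (hstd.vec a ha).symm
  have hc : ∀ u, ρ a (x u) = x (ρ a u) := fun u => by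
    have := congrArg (fun T : H →L[ℂ] H => T u) (hstd.comm a ha x hx)
    simpa using this
  unfold dc
  rw [hv]
  simp only [sub_apply, ContinuousLinearMap.mul_apply, map_sub]
  rw [hc, hc]
  abel

lemma norm_comm_le (x S e : H →L[ℂ] H) (ξ : H) (hξ : ‖ξ‖ = 1) :
    ‖(x * (S * e - e * S) - (S * e - e * S) * x) ξ‖ ≤ 4 * ‖x‖ * ‖S‖ * ‖e‖ := by
  refine (ContinuousLinearMap.le_opNorm _ _).trans ?_
  rw [hξ, mul_one]
  have h1 : ‖S * e - e * S‖ ≤ 2 * (‖S‖ * ‖e‖) := by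
    refine (norm_sub_le _ _).trans ?_
    have h2 := norm_mul_le S e
    have h3 := norm_mul_le e S
    linarith
  refine (norm_sub_le _ _).trans ?_
  have h2 := norm_mul_le x (S * e - e * S)
  have h3 := norm_mul_le (S * e - e * S) x
  have h4 := mul_le_mul_of_nonneg_left h1 (norm_nonneg x)
  linarith

theorem step (h0 : S_RNW) (h1 : S_SEL) (h2 : S_UNI) (h3 : S_EXT) (h4 : S_AVG) (h5 : S_M4) :
    S_STEP := by
  obtain ⟨Ks, hKs, hsel⟩ := h1
  obtain ⟨Ku, hKu, huni⟩ := h2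
  obtain ⟨Ke, hKe, hext⟩ := h3
  obtain ⟨Ka, hKa, havg⟩ := h4
  set K := (1 + 2 * Ks) + 2 * (Ka * (Ke * (Ks * (1 + Ku)))) + 24 * (Ku * Ks) with hK
  have hKu0 : 0 < Ku := by linarith
  have hKs0 : 0 < Ks := by linarith
  have hKe0 : 0 < Ke := by linarith
  have hKa0 : 0 < Ka := by linarith
  have hp1 : 0 < Ka * (Ke * (Ks * (1 + Ku))) := by positivity
  have hp2 : 0 < Ku * Ks := by positivity
  have hK1 : 1 ≤ K := by
    rw [hK]
    linarith
  have hKsK : Ks ≤ K := by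
    rw [hK]
    linarith
  refine ⟨K, hK1, ?_⟩
  intro H _ _ _ M ξ ρ G P Q γ δ hstd hG hKP hγ hγK hδ hDl
  have hγs : γ ≤ 1 / Ks := hγK.trans (one_div_le_one_div_of_le hKs0 hKsK)
  have hγ1 : γ ≤ 1 := hγK.trans (by
    rw [div_le_one (by linarith)]
    exact hK1)
  have hrn := h0 H M 1 ξ (by simp)
  rw [conj_one, conj_one] at hrn
  obtain ⟨c, T, T', hCD, hCM, hq⟩ :=
    hsel H M ξ ρ G P Q γ δ hstd hG hrn.1 hrn.2 hKP hγ hγs hδ hDl
  have hδs : 0 ≤ Ks * δ := by positivity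
  have hεs : 0 ≤ Ks * γ * δ := by positivity
  have hεδ : Ks * γ * δ ≤ Ks * δ := by
    have := mul_le_mul_of_nonneg_left hγ1 hδs
    linarith
  obtain ⟨S0, hS0n, hS0v, hS0u⟩ := huni H M ξ ρ c T T' (Ks * γ) (Ks * δ) (Ks * γ * δ) hstd
    (by positivity) hδs hεs hεδ hCD
  have hS0x := hext H M ξ ρ c T T' (Ks * γ) (Ks * δ) (Ks * γ * δ) hstd hεs hCD S0
    (Ku * (Ks * γ * δ)) (by positivity) hS0u
  set E1 := Ke * (Ks * γ * δ + Ku * (Ks * γ * δ)) with hE1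
  have hE1' : Ks * γ * δ ≤ E1 := by
    rw [hE1]
    have h6 : Ks * γ * δ ≤ Ks * γ * δ + Ku * (Ks * γ * δ) := by
      have : 0 ≤ Ku * (Ks * γ * δ) := by positivity
      linarith
    have h7 : 0 ≤ Ks * γ * δ + Ku * (Ks * γ * δ) := by positivity
    nlinarith
  have hE10 : 0 ≤ E1 := by positivity
  have hCM' : CM M ρ G c E1 := by
    refine ⟨hCM.left, ?_, ?_⟩
    · intro n u hu x hx a ha
      refine (hCM.mid n u hu x hx a ha).trans ?_
      gcongr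
    · intro n u hu x hx a ha
      refine (hCM.right n u hu x hx a ha).trans ?_
      gcongr
  obtain ⟨S, hSn, hSv, hSG, hSρ, hSx⟩ := havg H M ξ ρ G c S0 (Ku * (Ks * γ)) (Ku * (Ks * δ)) E1
    hstd hG hE10 hCM' hCD.one2 hS0n hS0v hS0x
  have hS6 : ‖S‖ ≤ 6 * (Ku * (Ks * δ)) :=
    h5 H M ξ ρ G hstd hG S (Ku * (Ks * δ)) (by positivity) hSG hSρ hSv
  refine ⟨S, ?_, hSG, hSρ, ?_⟩
  · refine hS6.trans ?_
    have : 6 * (Ku * (Ks * δ)) = 6 * (Ku * Ks) * δ := by ring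
    rw [this]
    apply mul_le_mul_of_nonneg_right _ hδ
    rw [hK]
    linarith
  · intro x hx q hqQ
    obtain ⟨r, hr, hqr⟩ := hKP.nQM' q hqQ
    have hr' : ∀ x ∈ M, r * x = x * r := by
      intro x hx
      exact ((VonNeumannAlgebra.mem_commutant_iff (S := M)).1 hr x hx).symm
    obtain ⟨a, ha, rfl⟩ := hstd.surj r hr'
    have hqn := norm_nonneg q
    have han : ‖a‖ ≤ 2 * ‖q‖ := by
      rw [← hstd.norm a ha]
      have h6 : ‖ρ a‖ ≤ ‖q‖ + ‖q - ρ a‖ := by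
        have e1 : ρ a = q - (q - ρ a) := by abel
        conv_lhs => rw [e1]
        exact norm_sub_le _ _
      have h7 : γ * ‖q‖ ≤ 1 * ‖q‖ := mul_le_mul_of_nonneg_right hγ1 hqn
      linarith
    obtain ⟨qa, hqa, hqan, hqc⟩ := hq a ha
    have hqqa : ‖q - qa‖ ≤ (1 + 2 * Ks) * γ * ‖q‖ := by
      have e1 : q - qa = (q - ρ a) - (qa - ρ a) := by abel
      rw [e1]
      refine (norm_sub_le _ _).trans ?_
      have h6 : Ks * γ * ‖a‖ ≤ Ks * γ * (2 * ‖q‖) :=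
        mul_le_mul_of_nonneg_left han (by positivity)
      linarith
    have hmem : q - qa ∈ Q := by
      have e1 : q - qa = q + (-1 : ℂ) • qa := by
        rw [neg_smul, one_smul, sub_eq_add_neg]
      rw [e1]
      exact hKP.addQ _ hqQ _ (hKP.smulQ _ _ hqa)
    have g1 : ‖(x * (q - qa) - (q - qa) * x) ξ‖ ≤ (1 + 2 * Ks) * (γ * δ * ‖x‖ * ‖q‖) := by
      refine (hDl x hx _ hmem).trans ?_
      have := mul_le_mul_of_nonneg_left hqqa (mul_nonneg hδ (norm_nonneg x))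
      refine this.trans (le_of_eq ?_)
      ring
    have g2 : ‖c x a + dc ξ ρ S x a‖ ≤
        2 * (Ka * (Ke * (Ks * (1 + Ku)))) * (γ * δ * ‖x‖ * ‖q‖) := by
      refine (hSx x hx a ha).trans ?_
      have := mul_le_mul_of_nonneg_left han
        (mul_nonneg (mul_nonneg hKa0.le hE10) (norm_nonneg x))
      refine this.trans (le_of_eq ?_)
      rw [hE1]
      ring
    have g3 : ‖(x * (S * (q - ρ a) - (q - ρ a) * S) - (S * (q - ρ a) - (q - ρ a) * S) * x) ξ‖ ≤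
        24 * (Ku * Ks) * (γ * δ * ‖x‖ * ‖q‖) := by
      refine (norm_comm_le x S (q - ρ a) ξ hstd.unit).trans ?_
      have h6 : 4 * ‖x‖ * ‖S‖ * ‖q - ρ a‖ ≤ 4 * ‖x‖ * (6 * (Ku * (Ks * δ))) * (γ * ‖q‖) := by
        gcongr
      refine h6.trans (le_of_eq ?_)
      ring
    have hdc := dc_eq M ξ ρ hstd S x a hx ha
    have hmain : (x * q - q * x) ξ - (x * (S * q - q * S) - (S * q - q * S) * x) ξ =
        (x * (q - qa) - (q - qa) * x) ξ + (c x a + dc ξ ρ S x a) -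
        (x * (S * (q - ρ a) - (q - ρ a) * S) - (S * (q - ρ a) - (q - ρ a) * S) * x) ξ := by
      rw [hdc, hqc x hx]
      simp only [sub_apply, ContinuousLinearMap.mul_apply, map_sub]
      abel
    rw [hmain]
    refine (norm_sub_le _ _).trans ?_
    have g4 := norm_add_le ((x * (q - qa) - (q - qa) * x) ξ) (c x a + dc ξ ρ S x a)
    have e2 : K * γ * δ * ‖x‖ * ‖q‖ = (1 + 2 * Ks) * (γ * δ * ‖x‖ * ‖q‖) +
        2 * (Ka * (Ke * (Ks * (1 + Ku)))) * (γ * δ * ‖x‖ * ‖q‖) +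
        24 * (Ku * Ks) * (γ * δ * ‖x‖ * ‖q‖) := by
      rw [hK]
      ring
    rw [e2]
    linarith

end Pool.Agent.W646.KKS
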