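import Pool.Agent.W662.KKS.Stmts

set_option autoImplicit false
set_option linter.unusedSectionVars false

/-!
# KKS-RNW: the Radon-Nikodym property of `w⁻¹ N w`
-/

open scoped InnerProductSpace
open Pool.Agent.W662.KKS

namespace Pool.Agent.W646.KKS

variable {H : Type} [NormedAddCommGroup H] [InnerProductSpace ℂ H] [CompleteSpace H]

lemma norm_one_le' : ‖(1 : H →L[ℂ] H)‖ ≤ 1 := ContinuousLinearMap.norm_id_le

lemma norm_w_le (w : (H →L[ℂ] H)ˣ) (e : ℝ) (hw : ‖(w : H →L[ℂ] H) - 1‖ ≤ e) :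
    ‖(w : H →L[ℂ] H)‖ ≤ 1 + e := by
  have h1 : ‖(w : H →L[ℂ] H)‖ ≤ ‖(w : H →L[ℂ] H) - 1‖ + ‖(1 : H →L[ℂ] H)‖ := by
    have := norm_add_le ((w : H →L[ℂ] H) - 1) 1
    simpa using this
  have := norm_one_le' (H := H)
  linarith

lemma norm_winv_le (w : (H →L[ℂ] H)ˣ) (e : ℝ) (hw : ‖(w : H →L[ℂ] H) - 1‖ ≤ e) (he : e < 1) :
    ‖((w⁻¹ : (H →L[ℂ] H)ˣ) : H →L[ℂ] H)‖ ≤ 1 / (1 - e) := by
  set W : H →L[ℂ] H := ((w⁻¹ : (H →L[ℂ] H)ˣ) : H →L[ℂ] H) with hW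
  have h1 : W = 1 + (1 - (w : H →L[ℂ] H)) * W := by
    rw [sub_mul, one_mul, hW, Units.mul_inv]
    abel
  have h2 : ‖W‖ ≤ 1 + e * ‖W‖ := by
    calc ‖W‖ = ‖1 + (1 - (w : H →L[ℂ] H)) * W‖ := by rw [← h1]
      _ ≤ ‖(1 : H →L[ℂ] H)‖ + ‖(1 - (w : H →L[ℂ] H)) * W‖ := norm_add_le _ _
      _ ≤ 1 + ‖1 - (w : H →L[ℂ] H)‖ * ‖W‖ := add_le_add norm_one_le' (norm_mul_le _ _)
      _ ≤ 1 + e * ‖W‖ := by
        have : ‖1 - (w : H →L[ℂ] H)‖ ≤ e := by rw [norm_sub_rev]; exact hw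
        have := mul_le_mul_of_nonneg_right this (norm_nonneg W)
        linarith
  rw [le_div_iff₀ (by linarith)]
  linarith

lemma rn_one (h : S_RNA) (N : VonNeumannAlgebra H) (w : (H →L[ℂ] H)ˣ) (ξ : H)
    (hw : ‖(w : H →L[ℂ] H) - 1‖ ≤ 1 / 10) : RN (conj w N) (conj w N.commutant) ξ := by
  set W : H →L[ℂ] H := ((w⁻¹ : (H →L[ℂ] H)ˣ) : H →L[ℂ] H) with hW
  have hwn : ‖(w : H →L[ℂ] H)‖ ≤ 11 / 10 := by
    have := norm_w_le w _ hw
    norm_num at this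
    exact this
  have hWn : ‖W‖ ≤ 10 / 9 := by
    have := norm_winv_le w _ hw (by norm_num)
    norm_num at this
    exact this
  have hwW : (w : H →L[ℂ] H) * W = 1 := Units.mul_inv w
  have hWw : W * (w : H →L[ℂ] H) = 1 := Units.inv_mul w
  have hwW' : ∀ v, (w : H →L[ℂ] H) (W v) = v := fun v => by
    have := congrArg (fun T : H →L[ℂ] H => T v) hwW
    simpa using this
  have hWw' : ∀ v, W ((w : H →L[ℂ] H) v) = v := fun v => by
    have := congrArg (fun T : H →L[ℂ] H => T v) hWw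
    simpa using this
  intro ζ d hd hb
  have key : ∀ r ∈ N.commutant, ‖r‖ ≤ 1 →
      ‖r ((w : H →L[ℂ] H) ζ)‖ ≤ 5 / 4 * ‖r ((w : H →L[ℂ] H) ξ)‖ + 11 / 8 * d := by
    intro r hr hr1
    have hbm : ((4 / 5 : ℂ) • (W * r * (w : H →L[ℂ] H))) ∈ conj w N.commutant := by
      show (w : H →L[ℂ] H) * ((4 / 5 : ℂ) • (W * r * (w : H →L[ℂ] H))) * W ∈ N.commutant
      have e : (w : H →L[ℂ] H) * ((4 / 5 : ℂ) • (W * r * (w : H →L[ℂ] H))) * W =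
          (4 / 5 : ℂ) • r := by
        rw [mul_smul_comm, smul_mul_assoc]
        congr 1
        calc (w : H →L[ℂ] H) * (W * r * (w : H →L[ℂ] H)) * W =
            ((w : H →L[ℂ] H) * W) * r * ((w : H →L[ℂ] H) * W) := by simp only [mul_assoc]
          _ = r := by rw [hwW, one_mul, mul_one]
      rw [e]
      exact N.commutant.toStarSubalgebra.smul_mem hr _
    have hn45 : ‖(4 / 5 : ℂ)‖ = 4 / 5 := by norm_num
    have hbn : ‖((4 / 5 : ℂ) • (W * r * (w : H →L[ℂ] H)))‖ ≤ 1 := by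
      rw [norm_smul, hn45]
      have h1 : ‖W * r * (w : H →L[ℂ] H)‖ ≤ 10 / 9 * 1 * (11 / 10) :=
        (norm_mul_le _ _).trans (mul_le_mul ((norm_mul_le _ _).trans
          (mul_le_mul hWn hr1 (norm_nonneg _) (by norm_num))) hwn (norm_nonneg _) (by norm_num))
      linarith
    have h1 := hb _ hbm hbn
    have e1 : ∀ v, ((4 / 5 : ℂ) • (W * r * (w : H →L[ℂ] H))) v =
        (4 / 5 : ℂ) • W (r ((w : H →L[ℂ] H) v)) := fun v => by simp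
    rw [e1, e1, norm_smul, norm_smul, hn45] at h1
    have h2 : ‖r ((w : H →L[ℂ] H) ζ)‖ ≤ 11 / 10 * ‖W (r ((w : H →L[ℂ] H) ζ))‖ := by
      calc ‖r ((w : H →L[ℂ] H) ζ)‖ = ‖(w : H →L[ℂ] H) (W (r ((w : H →L[ℂ] H) ζ)))‖ := by rw [hwW']
        _ ≤ ‖(w : H →L[ℂ] H)‖ * ‖W (r ((w : H →L[ℂ] H) ζ))‖ := ContinuousLinearMap.le_opNorm _ _
        _ ≤ _ := mul_le_mul_of_nonneg_right hwn (norm_nonneg _)
    have h3 : ‖W (r ((w : H →L[ℂ] H) ξ))‖ ≤ 10 / 9 * ‖r ((w : H →L[ℂ] H) ξ)‖ :=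
      (ContinuousLinearMap.le_opNorm _ _).trans (mul_le_mul_of_nonneg_right hWn (norm_nonneg _))
    have h4 := norm_nonneg (r ((w : H →L[ℂ] H) ξ))
    linarith
  obtain ⟨y, hy, hyn, hyd⟩ := h H N ((w : H →L[ℂ] H) ζ) ((w : H →L[ℂ] H) ξ) (5 / 4) (11 / 8 * d)
    (by norm_num) (by positivity) key
  refine ⟨W * y * (w : H →L[ℂ] H), ?_, ?_, ?_⟩
  · show (w : H →L[ℂ] H) * (W * y * (w : H →L[ℂ] H)) * W ∈ N
    have e : (w : H →L[ℂ] H) * (W * y * (w : H →L[ℂ] H)) * W = y := by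
      calc (w : H →L[ℂ] H) * (W * y * (w : H →L[ℂ] H)) * W =
          ((w : H →L[ℂ] H) * W) * y * ((w : H →L[ℂ] H) * W) := by simp only [mul_assoc]
        _ = y := by rw [hwW, one_mul, mul_one]
    rw [e]
    exact hy
  · have h1 : ‖W * y * (w : H →L[ℂ] H)‖ ≤ 10 / 9 * (2 * (5 / 4)) * (11 / 10) :=
      (norm_mul_le _ _).trans (mul_le_mul ((norm_mul_le _ _).trans
        (mul_le_mul hWn hyn (norm_nonneg _) (by norm_num))) hwn (norm_nonneg _) (by norm_num))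
    linarith
  · have e : ζ - (W * y * (w : H →L[ℂ] H)) ξ =
        W ((w : H →L[ℂ] H) ζ - y ((w : H →L[ℂ] H) ξ)) := by
      rw [map_sub, hWw']
      rfl
    rw [e]
    have h1 := (ContinuousLinearMap.le_opNorm W
      ((w : H →L[ℂ] H) ζ - y ((w : H →L[ℂ] H) ξ))).trans
      (mul_le_mul hWn hyd (norm_nonneg _) (by norm_num))
    linarith

theorem rnw (h : S_RNA) : S_RNW := by
  intro H _ _ _ N w ξ hw
  refine ⟨rn_one h N w ξ hw, ?_⟩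
  have h2 := rn_one h N.commutant w ξ hw
  rwa [VonNeumannAlgebra.commutant_commutant] at h2

end Pool.Agent.W646.KKS
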