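import Pool.Agent.W646.KKS.RNW

set_option autoImplicit false
set_option linter.unusedSectionVars false

/-!
# KKS-ITER: the limit of the iteration
-/

open scoped InnerProductSpace Topology
open Pool.Agent.W662.KKS Filter

namespace Pool.Agent.W646.KKS

variable {H : Type} [NormedAddCommGroup H] [InnerProductSpace ℂ H] [CompleteSpace H]

/-- the invariants of the iteration -/
structure Inv (M N : VonNeumannAlgebra H) (ξ : H) (ρ : (H →L[ℂ] H) → (H →L[ℂ] H))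
    (G : ℕ → Finset (H →L[ℂ] H)) (e δ : ℝ) (w : (H →L[ℂ] H)ˣ) : Prop where
  near : ‖(w : H →L[ℂ] H) - 1‖ ≤ e
  gP : ∀ n, ∀ u ∈ G n, u ∈ conj w N
  gQ : ∀ n, ∀ u ∈ G n, ρ u ∈ conj w N.commutant
  dl : Dl (M : Set (H →L[ℂ] H)) (conj w N.commutant) ξ δ

lemma mem_conj (w : (H →L[ℂ] H)ˣ) (N : VonNeumannAlgebra H) (y : H →L[ℂ] H) :
    y ∈ conj w N ↔ (w : H →L[ℂ] H) * y * ((w⁻¹ : (H →L[ℂ] H)ˣ) : H →L[ℂ] H) ∈ N := Iff.rfl

/-- one step -/
lemma one_step (K1 K2 : ℝ) (hK1 : 1 ≤ K1) (hK2 : 1 ≤ K2)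
    (hstep : ∀ (M : VonNeumannAlgebra H) (ξ : H)
      (ρ : (H →L[ℂ] H) → (H →L[ℂ] H)) (G : ℕ → Finset (H →L[ℂ] H)) (P Q : Set (H →L[ℂ] H))
      (γ δ : ℝ), Std M ξ ρ → LFG M ξ G → KP M ξ ρ G P Q γ → 0 < γ → γ ≤ 1 / K1 → 0 ≤ δ →
      Dl (M : Set (H →L[ℂ] H)) Q ξ δ →
      ∃ S : H →L[ℂ] H, ‖S‖ ≤ K1 * δ ∧ (∀ n, ∀ u ∈ G n, S * u = u * S) ∧
        (∀ n, ∀ u ∈ G n, S * ρ u = ρ u * S) ∧ ∀ x ∈ M, ∀ q ∈ Q,
          ‖(x * q - q * x) ξ - (x * (S * q - q * S) - (S * q - q * S) * x) ξ‖ ≤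
            K1 * γ * δ * ‖x‖ * ‖q‖)
    (M N : VonNeumannAlgebra H) (ξ : H) (ρ : (H →L[ℂ] H) → (H →L[ℂ] H))
    (G : ℕ → Finset (H →L[ℂ] H)) (hstd : Std M ξ ρ) (hG : LFG M ξ G)
    (e δ Γ : ℝ) (w : (H →L[ℂ] H)ˣ) (hδ : 0 ≤ δ) (he : e ≤ 1 / 10)
    (hKP : KP M ξ ρ G (conj w N) (conj w N.commutant) Γ) (hΓ : 0 < Γ) (hΓ1 : K1 * Γ ≤ 1 / 8)
    (hδ1 : 64 * K1 ^ 2 * δ ≤ 1) (hI : Inv M N ξ ρ G e δ w) :
    ∃ w' : (H →L[ℂ] H)ˣ, Inv M N ξ ρ G (e + 4 * K1 * δ) (δ / 2) w' ∧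
      ‖(w' : H →L[ℂ] H) - w‖ ≤ 4 * K1 * δ := by
  have hK10 : 0 < K1 := by linarith
  have hΓ2 : Γ ≤ 1 / K1 := by
    rw [le_div_iff₀ hK10]
    linarith
  obtain ⟨S, hSn, hSG, hSρ, hSx⟩ := hstep M ξ ρ G _ _ Γ δ hstd hG hKP hΓ hΓ2 hδ hI.dl
  have hS10 : ‖S‖ ≤ 1 / 10 := by
    refine hSn.trans ?_
    have h1 : K1 * δ ≤ K1 ^ 2 * δ := by
      have : K1 ≤ K1 ^ 2 := by nlinarith
      exact mul_le_mul_of_nonneg_right this hδ
    linarith
  set u : (H →L[ℂ] H)ˣ := Units.oneSub S (by linarith) with hu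
  have huv : (u : H →L[ℂ] H) = 1 - S := rfl
  set U : H →L[ℂ] H := ((u⁻¹ : (H →L[ℂ] H)ˣ) : H →L[ℂ] H) with hU
  have huU : (1 - S) * U = 1 := Units.mul_inv u
  have hUu : U * (1 - S) = 1 := Units.inv_mul u
  have hUn : ‖U‖ ≤ 10 / 9 := by
    have := norm_winv_le u (1 / 10) (by rw [huv]; simpa using hS10) (by norm_num)
    norm_num at this
    exact this
  have hun : ‖(1 - S : H →L[ℂ] H)‖ ≤ 11 / 10 := by
    have := norm_w_le u (1 / 10) (by rw [huv]; simpa using hS10)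
    norm_num at this
    exact this
  have hU1 : U - 1 = U * S := by
    have : U * (1 - S) = U - U * S := by rw [mul_sub, mul_one]
    rw [this] at hUu
    rw [← hUu]
    abel
  have hU1n : ‖U - 1‖ ≤ 2 * (K1 * δ) := by
    rw [hU1]
    have h1 := (norm_mul_le U S).trans (mul_le_mul hUn hSn (norm_nonneg _) (by norm_num))
    have h2 : 0 ≤ K1 * δ := by positivity
    linarith
  have hwn : ‖(w : H →L[ℂ] H)‖ ≤ 11 / 10 := by
    have := norm_w_le w _ hI.near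
    linarith
  refine ⟨w * u⁻¹, ⟨?_, ?_, ?_, ?_⟩, ?_⟩
  · have e1 : ((w * u⁻¹ : (H →L[ℂ] H)ˣ) : H →L[ℂ] H) - 1 =
        ((w : H →L[ℂ] H) - 1) + (w : H →L[ℂ] H) * (U - 1) := by
      rw [Units.val_mul, ← hU]
      noncomm_ring
    rw [e1]
    refine (norm_add_le _ _).trans (add_le_add hI.near ?_)
    have h1 := (norm_mul_le (w : H →L[ℂ] H) (U - 1)).trans
      (mul_le_mul hwn hU1n (norm_nonneg _) (by norm_num))
    have h2 : 0 ≤ K1 * δ := by positivity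
    linarith
  · intro n g hg
    have h1 := hI.gP n g hg
    rw [mem_conj] at h1 ⊢
    have e1 : ((w * u⁻¹ : (H →L[ℂ] H)ˣ) : H →L[ℂ] H) * g *
        (((w * u⁻¹)⁻¹ : (H →L[ℂ] H)ˣ) : H →L[ℂ] H) =
        (w : H →L[ℂ] H) * g * ((w⁻¹ : (H →L[ℂ] H)ˣ) : H →L[ℂ] H) := by
      have e2 : U * g * (1 - S) = g := by
        have e3 : g * (1 - S) = (1 - S) * g := by
          rw [mul_sub, sub_mul, mul_one, one_mul, hSG n g hg]
        rw [mul_assoc, e3, ← mul_assoc, hUu, one_mul]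
      rw [mul_inv_rev, inv_inv, Units.val_mul, Units.val_mul, ← hU, huv]
      calc (w : H →L[ℂ] H) * U * g * ((1 - S) * ((w⁻¹ : (H →L[ℂ] H)ˣ) : H →L[ℂ] H)) =
          (w : H →L[ℂ] H) * (U * g * (1 - S)) * ((w⁻¹ : (H →L[ℂ] H)ˣ) : H →L[ℂ] H) := by
            simp only [mul_assoc]
        _ = _ := by rw [e2]
    rw [e1]
    exact h1
  · intro n g hg
    have h1 := hI.gQ n g hg
    rw [mem_conj] at h1 ⊢
    have e1 : ((w * u⁻¹ : (H →L[ℂ] H)ˣ) : H →L[ℂ] H) * ρ g *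
        (((w * u⁻¹)⁻¹ : (H →L[ℂ] H)ˣ) : H →L[ℂ] H) =
        (w : H →L[ℂ] H) * ρ g * ((w⁻¹ : (H →L[ℂ] H)ˣ) : H →L[ℂ] H) := by
      have e2 : U * ρ g * (1 - S) = ρ g := by
        have e3 : ρ g * (1 - S) = (1 - S) * ρ g := by
          rw [mul_sub, sub_mul, mul_one, one_mul, hSρ n g hg]
        rw [mul_assoc, e3, ← mul_assoc, hUu, one_mul]
      rw [mul_inv_rev, inv_inv, Units.val_mul, Units.val_mul, ← hU, huv]
      calc (w : H →L[ℂ] H) * U * ρ g * ((1 - S) * ((w⁻¹ : (H →L[ℂ] H)ˣ) : H →L[ℂ] H)) =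
          (w : H →L[ℂ] H) * (U * ρ g * (1 - S)) * ((w⁻¹ : (H →L[ℂ] H)ˣ) : H →L[ℂ] H) := by
            simp only [mul_assoc]
        _ = _ := by rw [e2]
    rw [e1]
    exact h1
  · intro x hx q' hq'
    rw [mem_conj, mul_inv_rev, inv_inv, Units.val_mul, Units.val_mul, ← hU, huv] at hq'
    set q : H →L[ℂ] H := U * q' * (1 - S) with hq
    have hqm : q ∈ conj w N.commutant := by
      rw [mem_conj, hq]
      have e1 : (w : H →L[ℂ] H) * (U * q' * (1 - S)) * ((w⁻¹ : (H →L[ℂ] H)ˣ) : H →L[ℂ] H) =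
          (w : H →L[ℂ] H) * U * q' * ((1 - S) * ((w⁻¹ : (H →L[ℂ] H)ˣ) : H →L[ℂ] H)) := by
        simp only [mul_assoc]
      rw [e1]
      exact hq'
    have hqn : ‖q‖ ≤ 2 * ‖q'‖ := by
      have h1 : ‖U * q' * (1 - S)‖ ≤ 10 / 9 * ‖q'‖ * (11 / 10) :=
        (norm_mul_le _ _).trans (mul_le_mul ((norm_mul_le _ _).trans
          (mul_le_mul_of_nonneg_right hUn (norm_nonneg _))) hun (norm_nonneg _) (by positivity))
      have h2 := norm_nonneg q'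
      rw [hq]
      linarith
    have hq'eq : q' = q - (S * q - q * S) - (S * q - q * S) * (U - 1) := by
      have e1 : q' = (1 - S) * q * U := by
        rw [hq]
        calc q' = ((1 - S) * U) * q' * ((1 - S) * U) := by rw [huU, one_mul, mul_one]
          _ = _ := by simp only [mul_assoc]
      have e2 : (1 - S) * q = q * (1 - S) - (S * q - q * S) := by noncomm_ring
      have e3 : (1 - S) * q * U = q - (S * q - q * S) * U := by
        rw [e2, sub_mul, mul_assoc q, huU, mul_one]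
      rw [e1, e3]
      noncomm_ring
    have h1 := hSx x hx q hqm
    have e4 : (x * q' - q' * x) ξ =
        ((x * q - q * x) ξ - (x * (S * q - q * S) - (S * q - q * S) * x) ξ) -
        (x * ((S * q - q * S) * (U - 1)) - ((S * q - q * S) * (U - 1)) * x) ξ := by
      rw [← sub_apply, ← sub_apply]
      congr 1
      conv_lhs => rw [hq'eq]
      noncomm_ring
    have hc : ‖S * q - q * S‖ ≤ 2 * (K1 * δ) * ‖q‖ := by
      refine (norm_sub_le _ _).trans ?_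
      have h2 := (norm_mul_le S q).trans (mul_le_mul_of_nonneg_right hSn (norm_nonneg q))
      have h3 := (norm_mul_le q S).trans (mul_le_mul_of_nonneg_left hSn (norm_nonneg q))
      linarith
    have hc2 : ‖(S * q - q * S) * (U - 1)‖ ≤ 2 * (K1 * δ) * ‖q‖ * (2 * (K1 * δ)) :=
      (norm_mul_le _ _).trans (mul_le_mul hc hU1n (norm_nonneg _) (by positivity))
    have h5 : ‖(x * ((S * q - q * S) * (U - 1)) - ((S * q - q * S) * (U - 1)) * x) ξ‖ ≤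
        8 * K1 ^ 2 * δ * δ * ‖x‖ * ‖q‖ := by
      refine (ContinuousLinearMap.le_opNorm _ _).trans ?_
      rw [hstd.unit, mul_one]
      refine (norm_sub_le _ _).trans ?_
      have h2 := (norm_mul_le x ((S * q - q * S) * (U - 1))).trans
        (mul_le_mul_of_nonneg_left hc2 (norm_nonneg x))
      have h3 := (norm_mul_le ((S * q - q * S) * (U - 1)) x).trans
        (mul_le_mul_of_nonneg_right hc2 (norm_nonneg x))
      have e5 : 8 * K1 ^ 2 * δ * δ * ‖x‖ * ‖q‖ =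
        ‖x‖ * (2 * (K1 * δ) * ‖q‖ * (2 * (K1 * δ))) +
        2 * (K1 * δ) * ‖q‖ * (2 * (K1 * δ)) * ‖x‖ := by ring
      rw [e5]
      exact add_le_add h2 h3
    rw [e4]
    refine (norm_sub_le _ _).trans ?_
    have h6 : K1 * Γ * δ * ‖x‖ * ‖q‖ ≤ 1 / 8 * δ * ‖x‖ * ‖q‖ := by gcongr
    have h7 : 8 * K1 ^ 2 * δ * δ * ‖x‖ * ‖q‖ ≤ 1 / 8 * δ * ‖x‖ * ‖q‖ := by
      have : 8 * K1 ^ 2 * δ ≤ 1 / 8 := by linarith
      gcongr
    have h8 : δ * ‖x‖ * ‖q‖ ≤ δ * ‖x‖ * (2 * ‖q'‖) := by gcongr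
    linarith
  · have e1 : ((w * u⁻¹ : (H →L[ℂ] H)ˣ) : H →L[ℂ] H) - w = (w : H →L[ℂ] H) * (U - 1) := by
      rw [Units.val_mul, ← hU]
      noncomm_ring
    rw [e1]
    have h1 := (norm_mul_le (w : H →L[ℂ] H) (U - 1)).trans
      (mul_le_mul hwn hU1n (norm_nonneg _) (by norm_num))
    have h2 : 0 ≤ K1 * δ := by positivity
    linarith

theorem iter (h1 : S_STEP) (h2 : S_KPW) : S_ITER := by
  obtain ⟨K1, hK1, hstep⟩ := h1
  obtain ⟨K2, hK2, hkpw⟩ := h2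
  have hK10 : 0 < K1 := by linarith
  have hK20 : 0 < K2 := by linarith
  have hq1 : 1 ≤ K1 ^ 2 := one_le_pow₀ hK1
  have hq2 : 1 ≤ K2 ^ 2 := one_le_pow₀ hK2
  have hqq : 1 ≤ K1 ^ 2 * K2 ^ 2 := by nlinarith
  refine ⟨1000 * (K1 ^ 2 * K2 ^ 2), by linarith, ?_⟩
  intro H _ _ _ M N ξ ρ G v γ hstd hG hγ hγK hv hMN hNM hMN' hNM' hgP hgQ
  have hγb : 1000 * (K1 ^ 2 * K2 ^ 2) * γ ≤ 1 := by
    rw [le_div_iff₀ (by positivity)] at hγK
    linarith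
  have hm1 : K1 * K2 ≤ K1 ^ 2 * K2 ^ 2 := by
    have h3 : K1 ≤ K1 ^ 2 := by nlinarith
    have h4 : K2 ≤ K2 ^ 2 := by nlinarith
    exact mul_le_mul h3 h4 hK20.le (by positivity)
  have hm2 : K1 ^ 2 * K2 ≤ K1 ^ 2 * K2 ^ 2 := by
    have h4 : K2 ≤ K2 ^ 2 := by nlinarith
    exact mul_le_mul_of_nonneg_left h4 (by positivity)
  have hm3 : 1 ≤ K1 * K2 := by nlinarith
  set X := K1 ^ 2 * K2 ^ 2 * γ with hX
  have hX1 : 1000 * X ≤ 1 := by rw [hX]; linarith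
  have hγX : γ ≤ X := by
    rw [hX]
    nlinarith
  have hX0 : 0 < X := hγ.trans_le hγX
  have hKKX : K1 * K2 * γ ≤ X := by
    rw [hX]
    exact mul_le_mul_of_nonneg_right hm1 hγ.le
  have hKKX2 : K1 ^ 2 * K2 * γ ≤ X := by
    rw [hX]
    exact mul_le_mul_of_nonneg_right hm2 hγ.le
  set δ0 := 4 * K2 * γ with hδ0
  have hδ0p : 0 < δ0 := by positivity
  set η := γ + 8 * K1 * δ0 with hη
  have hηX : η ≤ 33 * X := by
    rw [hη, hδ0]
    have : 8 * K1 * (4 * K2 * γ) = 32 * (K1 * K2 * γ) := by ring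
    rw [this]
    linarith
  have hη10 : η ≤ 1 / 10 := by linarith
  set Γ := K2 * (γ + η) with hΓ
  have hη0 : 0 < η := by
    have : 0 < 8 * K1 * δ0 := by positivity
    linarith
  have hΓ0 : 0 < Γ := by positivity
  have hΓ1 : K1 * Γ ≤ 1 / 8 := by
    have e1 : K1 * Γ = 2 * (K1 * K2 * γ) + 32 * X := by
      rw [hΓ, hη, hδ0, hX]
      ring
    rw [e1]
    linarith
  have hδ1 : ∀ k : ℕ, 64 * K1 ^ 2 * (δ0 / 2 ^ k) ≤ 1 := by
    intro k
    have h3 : δ0 / 2 ^ k ≤ δ0 := div_le_self hδ0p.le (one_le_pow₀ (by norm_num))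
    have h4 : 64 * K1 ^ 2 * (δ0 / 2 ^ k) ≤ 64 * K1 ^ 2 * δ0 :=
      mul_le_mul_of_nonneg_left h3 (by positivity)
    have e1 : 64 * K1 ^ 2 * δ0 = 256 * (K1 ^ 2 * K2 * γ) := by
      rw [hδ0]
      ring
    linarith
  -- the bounds on the displacement
  set ek : ℕ → ℝ := fun k => γ + 8 * K1 * δ0 * (1 - 1 / 2 ^ k) with hek
  have hekη : ∀ k, ek k ≤ η := by
    intro k
    simp only [hek, hη]
    have h3 : (0 : ℝ) < 1 / 2 ^ k := by positivity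
    have h4 : 0 ≤ 8 * K1 * δ0 := by positivity
    nlinarith
  have heks : ∀ k, ek k + 4 * K1 * (δ0 / 2 ^ k) = ek (k + 1) := by
    intro k
    simp only [hek]
    rw [pow_succ]
    field_simp
    ring
  -- the start
  have hγη : γ ≤ 1 := by linarith
  have hstart : Inv M N ξ ρ G (ek 0) (δ0 / 2 ^ 0) v := by
    refine ⟨?_, hgP, hgQ, ?_⟩
    · simpa [hek] using hv
    · intro x hx q hq
      have hKP0 := hkpw H M N ξ ρ G v γ γ hγ.le hγη hv (by linarith) hMN hNM hMN' hNM' hgP hgQ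
      obtain ⟨r, hr, hqr⟩ := hKP0.nQM' q hq
      have hr' : x * r = r * x := (VonNeumannAlgebra.mem_commutant_iff (S := M)).1 hr x hx
      have e1 : x * q - q * x = x * (q - r) - (q - r) * x := by
        rw [mul_sub, sub_mul, hr']
        abel
      rw [e1]
      refine (ContinuousLinearMap.le_opNorm _ _).trans ?_
      rw [hstd.unit, mul_one]
      refine (norm_sub_le _ _).trans ?_
      have h3 := (norm_mul_le x (q - r)).trans (mul_le_mul_of_nonneg_left hqr (norm_nonneg x))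
      have h4 := (norm_mul_le (q - r) x).trans (mul_le_mul_of_nonneg_right hqr (norm_nonneg x))
      have e2 : δ0 / 2 ^ 0 * ‖x‖ * ‖q‖ = ‖x‖ * (K2 * (γ + γ) * ‖q‖) +
          K2 * (γ + γ) * ‖q‖ * ‖x‖ := by
        rw [hδ0]
        ring
      rw [e2]
      exact add_le_add h3 h4
  have hnext : ∀ k : ℕ, ∀ w : (H →L[ℂ] H)ˣ, Inv M N ξ ρ G (ek k) (δ0 / 2 ^ k) w →
      ∃ w' : (H →L[ℂ] H)ˣ, Inv M N ξ ρ G (ek (k + 1)) (δ0 / 2 ^ (k + 1)) w' ∧
        ‖(w' : H →L[ℂ] H) - w‖ ≤ 4 * K1 * (δ0 / 2 ^ k) := by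
    intro k w hI
    have hKP := hkpw H M N ξ ρ G w γ η hγ.le hγη (hI.near.trans (hekη k)) hη10
      hMN hNM hMN' hNM' hI.gP hI.gQ
    obtain ⟨w', hw', hd⟩ := one_step K1 K2 hK1 hK2 (fun M ξ ρ G P Q γ δ => hstep H M ξ ρ G P Q γ δ)
      M N ξ ρ G hstd hG (ek k) (δ0 / 2 ^ k) Γ w (by positivity) ((hekη k).trans hη10) hKP hΓ0 hΓ1
      (hδ1 k) hI
    refine ⟨w', ?_, hd⟩
    rw [← heks k]
    have e1 : δ0 / 2 ^ (k + 1) = δ0 / 2 ^ k / 2 := by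
      rw [pow_succ]
      field_simp
    rw [e1]
    exact hw'
  choose nx hnx1 hnx2 using hnext
  let f : (k : ℕ) → {w : (H →L[ℂ] H)ˣ // Inv M N ξ ρ G (ek k) (δ0 / 2 ^ k) w} := fun k =>
    Nat.rec ⟨v, hstart⟩ (fun k p => ⟨nx k p.1 p.2, hnx1 k p.1 p.2⟩) k
  set W : ℕ → (H →L[ℂ] H) := fun k => ((f k).1 : H →L[ℂ] H) with hW
  have hWd : ∀ k, dist (W k) (W (k + 1)) ≤ (8 * K1 * δ0) / 2 / 2 ^ k := by
    intro k
    rw [dist_comm, dist_eq_norm]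
    refine (hnx2 k (f k).1 (f k).2).trans (le_of_eq ?_)
    ring
  have hcau : CauchySeq W := cauchySeq_of_le_geometric_two hWd
  obtain ⟨wl, hwl⟩ := cauchySeq_tendsto_of_complete hcau
  have hwln : ‖wl - 1‖ ≤ η := by
    have h3 : Tendsto (fun k => ‖W k - 1‖) atTop (𝓝 ‖wl - 1‖) := (hwl.sub_const 1).norm
    exact le_of_tendsto h3 (Eventually.of_forall fun k => ((f k).2.near).trans (hekη k))
  have hlt : ‖(1 : H →L[ℂ] H) - wl‖ < 1 := by
    rw [norm_sub_rev]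
    linarith
  set w : (H →L[ℂ] H)ˣ := Units.oneSub (1 - wl) hlt with hw
  have hwv : (w : H →L[ℂ] H) = wl := by
    show 1 - (1 - wl) = wl
    abel
  refine ⟨w, ?_, ?_⟩
  · rw [hwv]
    refine hwln.trans (hηX.trans ?_)
    rw [hX]
    nlinarith [hX0, mul_pos (mul_pos (pow_pos hK10 2) (pow_pos hK20 2)) hγ]
  · intro x hx q hq
    rw [mem_conj] at hq
    set n : H →L[ℂ] H := (w : H →L[ℂ] H) * q * ((w⁻¹ : (H →L[ℂ] H)ˣ) : H →L[ℂ] H) with hn
    set qk : ℕ → (H →L[ℂ] H) := fun k =>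
      (((f k).1⁻¹ : (H →L[ℂ] H)ˣ) : H →L[ℂ] H) * n * W k with hqk
    have hqkm : ∀ k, qk k ∈ conj (f k).1 N.commutant := by
      intro k
      rw [mem_conj]
      have e1 : ((f k).1 : H →L[ℂ] H) * qk k * (((f k).1⁻¹ : (H →L[ℂ] H)ˣ) : H →L[ℂ] H) = n := by
        simp only [hqk, hW]
        calc ((f k).1 : H →L[ℂ] H) * ((((f k).1⁻¹ : (H →L[ℂ] H)ˣ) : H →L[ℂ] H) * n *
            ((f k).1 : H →L[ℂ] H)) * (((f k).1⁻¹ : (H →L[ℂ] H)ˣ) : H →L[ℂ] H) =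
            (((f k).1 : H →L[ℂ] H) * (((f k).1⁻¹ : (H →L[ℂ] H)ˣ) : H →L[ℂ] H)) * n *
            (((f k).1 : H →L[ℂ] H) * (((f k).1⁻¹ : (H →L[ℂ] H)ˣ) : H →L[ℂ] H)) := by
              simp only [mul_assoc]
          _ = n := by rw [Units.mul_inv, one_mul, mul_one]
      rw [e1]
      exact hq
    have hinv : Tendsto (fun k => (((f k).1⁻¹ : (H →L[ℂ] H)ˣ) : H →L[ℂ] H)) atTop
        (𝓝 ((w⁻¹ : (H →L[ℂ] H)ˣ) : H →L[ℂ] H)) := by
      have h3 : ContinuousAt Ring.inverse (w : H →L[ℂ] H) := NormedRing.inverse_continuousAt w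
      have h4 : Tendsto W atTop (𝓝 (w : H →L[ℂ] H)) := by
        rw [hwv]
        exact hwl
      have h5 := h3.tendsto.comp h4
      have e1 : (Ring.inverse ∘ W) = fun k => (((f k).1⁻¹ : (H →L[ℂ] H)ˣ) : H →L[ℂ] H) := by
        funext k
        exact Ring.inverse_unit _
      rw [e1, Ring.inverse_unit] at h5
      exact h5
    have hqlim : Tendsto qk atTop (𝓝 q) := by
      have h4 : Tendsto W atTop (𝓝 (w : H →L[ℂ] H)) := by
        rw [hwv]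
        exact hwl
      have h5 := (hinv.mul_const n).mul h4
      have e1 : ((w⁻¹ : (H →L[ℂ] H)ˣ) : H →L[ℂ] H) * n * (w : H →L[ℂ] H) = q := by
        rw [hn]
        calc ((w⁻¹ : (H →L[ℂ] H)ˣ) : H →L[ℂ] H) * ((w : H →L[ℂ] H) * q *
            ((w⁻¹ : (H →L[ℂ] H)ˣ) : H →L[ℂ] H)) * (w : H →L[ℂ] H) =
            (((w⁻¹ : (H →L[ℂ] H)ˣ) : H →L[ℂ] H) * (w : H →L[ℂ] H)) * q *
            (((w⁻¹ : (H →L[ℂ] H)ˣ) : H →L[ℂ] H) * (w : H →L[ℂ] H)) := by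
              simp only [mul_assoc]
          _ = q := by rw [Units.inv_mul, one_mul, mul_one]
      rw [e1] at h5
      exact h5
    have hL : Tendsto (fun k => ‖(x * qk k - qk k * x) ξ‖) atTop (𝓝 ‖(x * q - q * x) ξ‖) := by
      have h3 : Tendsto (fun k => x * qk k - qk k * x) atTop (𝓝 (x * q - q * x)) :=
        (hqlim.const_mul x).sub (hqlim.mul_const x)
      have h4 : Continuous fun T : H →L[ℂ] H => T ξ := continuous_eval_const ξ
      exact ((h4.tendsto _).comp h3).norm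
    have hR : Tendsto (fun k : ℕ => δ0 / 2 ^ k * ‖x‖ * ‖qk k‖) atTop (𝓝 (0 * ‖x‖ * ‖q‖)) := by
      have h3 : Tendsto (fun k : ℕ => δ0 / 2 ^ k) atTop (𝓝 0) := by
        have h4 : Tendsto (fun k : ℕ => δ0 * (1 / 2 : ℝ) ^ k) atTop (𝓝 (δ0 * 0)) :=
          (tendsto_pow_atTop_nhds_zero_of_lt_one (by norm_num) (by norm_num)).const_mul δ0
        rw [mul_zero] at h4
        refine h4.congr fun k => ?_
        rw [one_div_pow]
        ring
      exact (h3.mul_const ‖x‖).mul hqlim.norm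
    exact le_of_tendsto_of_tendsto' hL hR fun k => (f k).2.dl x hx (qk k) (hqkm k)

end Pool.Agent.W646.KKS
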