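import Pool.Agent.W662.KKS.Stmts

set_option autoImplicit false
set_option linter.unusedSectionVars false

/-!
# KKS-M4: bimodular operators are bounded by their infinity-2 norm
-/

open scoped InnerProductSpace
open Pool.Agent.W662.KKS

namespace Pool.Agent.W646.KKS

lemma arch_le {X Y Z : ℝ} (h : ∀ m : ℕ, 1 ≤ m → (m : ℝ) * X ≤ m * Y + Z) : X ≤ Y := by
  by_contra hcon
  push Not at hcon
  obtain ⟨m, hm⟩ := exists_nat_gt (max 1 (Z / (X - Y)))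
  have h1 : (1 : ℝ) < m := (le_max_left _ _).trans_lt hm
  have h2 : Z / (X - Y) < m := (le_max_right _ _).trans_lt hm
  have h3 := h m (by exact_mod_cast h1.le)
  rw [div_lt_iff₀ (by linarith)] at h2
  nlinarith

lemma m4_num (N0 D L P Q R m : ℝ) (hD : 0 ≤ D) (hN : 0 ≤ N0) (hP : 0 ≤ P) (hm : 0 < m)
    (hL : 0 < L) (hL2 : L ^ 2 = 8 * m) (hR : 0 ≤ R) (h1 : R ≤ D * L + N0 * Q) (h2 : Q ≤ P / L) :
    R ^ 2 ≤ 16 * D ^ 2 * m + N0 ^ 2 / (4 * m) * P ^ 2 := by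
  have h3 : R ≤ D * L + N0 * (P / L) := h1.trans (by
    have := mul_le_mul_of_nonneg_left h2 hN
    linarith)
  have h4 : R ^ 2 ≤ (D * L + N0 * (P / L)) ^ 2 := pow_le_pow_left₀ hR h3 2
  have h5 : (D * L + N0 * (P / L)) ^ 2 ≤ 2 * (D * L) ^ 2 + 2 * (N0 * (P / L)) ^ 2 := by
    nlinarith [sq_nonneg (D * L - N0 * (P / L))]
  have h6 : 2 * (D * L) ^ 2 = 16 * D ^ 2 * m := by
    rw [mul_pow, hL2]
    ring
  have h7 : 2 * (N0 * (P / L)) ^ 2 = N0 ^ 2 / (4 * m) * P ^ 2 := by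
    rw [mul_pow, div_pow, hL2]
    field_simp
    ring
  linarith

theorem m4 (h1 : S_TRUNC) (h2 : S_FLAT) : S_M4 := by
  intro H _ _ _ M ξ ρ G hstd hG S D hD hSG hSρ hSD
  set N0 := ‖S‖ with hN0
  have hN0n : 0 ≤ N0 := norm_nonneg S
  -- unit vectors
  have key1 : ∀ a ∈ M, ‖a ξ‖ = 1 → ‖S (a ξ)‖ ^ 2 ≤ 16 * D ^ 2 + N0 ^ 2 / 2 := by
    intro a ha ha1
    set κ := ‖(star a * a) ξ‖ ^ 2 with hκ
    apply arch_le (Z := N0 ^ 2 * κ / 4 + 1)
    intro m hm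
    have hm0 : (0 : ℝ) < m := by exact_mod_cast hm
    obtain ⟨y, hy, hyf⟩ := h2 H M ξ ρ G hstd hG S hSG hSρ a ha ha1 m (N0 ^ 2 / (4 * m)) 1
      (by positivity) one_pos
    have hL : 0 < √(8 * m : ℝ) := Real.sqrt_pos.2 (by positivity)
    have hL2 : √(8 * m : ℝ) ^ 2 = 8 * m := Real.sq_sqrt (by positivity)
    obtain ⟨y1, hy1, hy1n, hy1d⟩ := h1 H M ξ ρ hstd y hy _ hL
    have h3 : ‖S (y ξ)‖ ≤ D * √(8 * m : ℝ) + N0 * ‖(y - y1) ξ‖ := by
      have e : y ξ = y1 ξ + (y - y1) ξ := by simp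
      rw [e, map_add]
      refine (norm_add_le _ _).trans (add_le_add ?_ (ContinuousLinearMap.le_opNorm _ _))
      exact (hSD y1 hy1).trans (mul_le_mul_of_nonneg_left hy1n hD)
    have h4 := m4_num N0 D _ ‖(star y * y) ξ‖ ‖(y - y1) ξ‖ ‖S (y ξ)‖ m hD hN0n (norm_nonneg _) hm0
      hL hL2 (norm_nonneg _) h3 hy1d
    have h5 : N0 ^ 2 / (4 * (m : ℝ)) * (m * κ + 2 * m ^ 2) = N0 ^ 2 * κ / 4 + m * (N0 ^ 2 / 2) := by
      field_simp
      ring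
    rw [h5] at hyf
    linarith
  -- all vectors of the form a ξ
  have key2 : ∀ a ∈ M, ‖S (a ξ)‖ ≤ √(16 * D ^ 2 + N0 ^ 2 / 2) * ‖a ξ‖ := by
    intro a ha
    by_cases h0 : a ξ = 0
    · rw [h0]
      simp
    · have hn : 0 < ‖a ξ‖ := norm_pos_iff.2 h0
      set c : ℂ := ((‖a ξ‖⁻¹ : ℝ) : ℂ) with hc
      have hcn : ‖c‖ = ‖a ξ‖⁻¹ := by
        rw [hc, Complex.norm_real, Real.norm_eq_abs, abs_of_pos (inv_pos.2 hn)]
      have hca : c • a ∈ M := M.toStarSubalgebra.smul_mem ha c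
      have h3 := key1 (c • a) hca (by
        rw [ContinuousLinearMap.smul_apply, norm_smul, hcn]
        field_simp)
      rw [ContinuousLinearMap.smul_apply, map_smul, norm_smul, hcn] at h3
      have h4 : ‖a ξ‖⁻¹ * ‖S (a ξ)‖ ≤ √(16 * D ^ 2 + N0 ^ 2 / 2) := Real.le_sqrt_of_sq_le h3
      rw [inv_mul_le_iff₀ hn] at h4
      linarith
  -- all vectors
  have key3 : ∀ v, ‖S v‖ ≤ √(16 * D ^ 2 + N0 ^ 2 / 2) * ‖v‖ := by
    intro v
    apply le_of_forall_pos_le_add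
    intro e he
    set R := √(16 * D ^ 2 + N0 ^ 2 / 2) with hR
    have hR0 : 0 ≤ R := Real.sqrt_nonneg _
    obtain ⟨x, hx, hxv⟩ := hstd.cyc v (e / (N0 + R + 1)) (by positivity)
    have h3 : ‖S v‖ ≤ ‖S (x ξ)‖ + N0 * ‖v - x ξ‖ := by
      have e1 : v = x ξ + (v - x ξ) := by abel
      conv_lhs => rw [e1, map_add]
      exact (norm_add_le _ _).trans (add_le_add le_rfl (ContinuousLinearMap.le_opNorm _ _))
    have h4 : ‖x ξ‖ ≤ ‖v‖ + ‖v - x ξ‖ := by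
      have e1 : x ξ = v - (v - x ξ) := by abel
      conv_lhs => rw [e1]
      exact norm_sub_le _ _
    have h5 := key2 x hx
    have h6 : R * ‖x ξ‖ ≤ R * ‖v‖ + R * ‖v - x ξ‖ := by
      have := mul_le_mul_of_nonneg_left h4 hR0
      linarith
    have h7 : (N0 + R + 1) * ‖v - x ξ‖ ≤ e := by
      rw [le_div_iff₀ (by positivity)] at hxv
      linarith
    have h8 := norm_nonneg (v - x ξ)
    nlinarith
  have hfin : N0 ≤ √(16 * D ^ 2 + N0 ^ 2 / 2) :=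
    ContinuousLinearMap.opNorm_le_bound _ (Real.sqrt_nonneg _) key3
  have h9 : N0 ^ 2 ≤ 16 * D ^ 2 + N0 ^ 2 / 2 := by
    have := pow_le_pow_left₀ hN0n hfin 2
    rwa [Real.sq_sqrt (by positivity)] at this
  nlinarith

end Pool.Agent.W646.KKS
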